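import Mathlib
import Pool.Agent.W450.DerFin

/-! MP_72b677_al, Q1: over every field of characteristic zero there are a finite dimensional
local algebra `A` with residue field `k` and a finitely generated `A`-module `M` with
`l(Der_k(A, M)) < l(M) - l(soc M)`. -/

namespace Pool.Agent.Results.MP_72b677_al.DerivationLength

open Pool.Agent.W450.Der

universe u

section

variable (k : Type u) [Field k]

theorem finiteLength {N : Type*} [AddCommGroup N] [Module k N] [Module (BB k) N]
    [IsScalarTower k (BB k) N] [Module.Finite k N] : IsFiniteLength (BB k) N := by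
  rw [isFiniteLength_iff_isNoetherian_isArtinian]
  exact ⟨isNoetherian_of_tower k inferInstance, isArtinian_of_tower k inferInstance⟩

/-- evaluation at one on the socle -/
noncomputable def socEv :
    Submodule.torsionBySet (BB k) (DualMod k (BB k))
      (IsLocalRing.maximalIdeal (BB k) : Set (BB k)) →ₗ[k] k where
  toFun f := f.1.ev 1
  map_add' _ _ := rfl
  map_smul' _ _ := rfl

theorem socEv_injective : Function.Injective (socEv k) := by
  rw [injective_iff_map_eq_zero]
  rintro ⟨f, hf⟩ h
  have h1 : f.ev 1 = 0 := h
  apply Subtype.ext
  apply DualMod.ext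
  intro b
  obtain ⟨c, hc⟩ := hres k b
  rw [Submodule.mem_torsionBySet_iff] at hf
  have h2 := hf ⟨_, hc⟩
  have h3 : ((b - algebraMap k (BB k) c) • f).ev 1 = 0 := by
    have h4 : (b - algebraMap k (BB k) c) • f = 0 := h2
    rw [h4]
    rfl
  rw [DualMod.ev_smul, mul_one, map_sub, Algebra.algebraMap_eq_smul_one, map_smul, h1, smul_zero,
    sub_zero] at h3
  exact h3

end

/-- Q1 of MP_72b677_al has a negative answer. -/
theorem result (k : Type u) [Field k] [CharZero k] :
    ∃ (A : Type u) (_ : CommRing A) (_ : IsLocalRing A) (_ : Algebra k A)
      (_ : Module.Finite k A) (M : Type u) (_ : AddCommGroup M) (_ : Module k M)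
      (_ : Module A M) (_ : IsScalarTower k A M),
      Function.Bijective (algebraMap k (IsLocalRing.ResidueField A)) ∧
      Module.Finite A M ∧
      Module.length A (Derivation k A M) +
        Module.length A (Submodule.torsionBySet A M (IsLocalRing.maximalIdeal A : Set A)) <
        Module.length A M := by
  have hfin := finrank_der k
  have : Module.Finite k (Derivation k (BB k) (DualMod k (BB k))) := hfin.1
  refine ⟨BB k, inferInstance, inferInstance, inferInstance, inferInstance,
    DualMod k (BB k), inferInstance, inferInstance, inferInstance, inferInstance,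
    residue_bijective k, Module.Finite.of_restrictScalars_finite k (BB k) _, ?_⟩
  have : Module.Finite k (Submodule.torsionBySet (BB k) (DualMod k (BB k))
      (IsLocalRing.maximalIdeal (BB k) : Set (BB k))) :=
    Module.Finite.of_injective (socEv k) (socEv_injective k)
  have l1 := (length_eq_finrank (k := k) (hres k)
    (finiteLength k (N := Derivation k (BB k) (DualMod k (BB k))))).2
  have l2 := (length_eq_finrank (k := k) (hres k)
    (finiteLength k (N := Submodule.torsionBySet (BB k) (DualMod k (BB k))
      (IsLocalRing.maximalIdeal (BB k) : Set (BB k))))).2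
  have l3 := (length_eq_finrank (k := k) (hres k)
    (finiteLength k (N := DualMod k (BB k)))).2
  have s1 : Module.finrank k (Submodule.torsionBySet (BB k) (DualMod k (BB k))
      (IsLocalRing.maximalIdeal (BB k) : Set (BB k))) ≤ 1 := by
    have := LinearMap.finrank_le_finrank_of_injective (socEv_injective k)
    rwa [Module.finrank_self] at this
  rw [l1, l2, l3, finrank_dualMod]
  have h2 := hfin.2
  norm_cast
  omega

end Pool.Agent.Results.MP_72b677_al.DerivationLength
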